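import Pool.Agent.Helper81.MH.GT

/-!
# Project MH: assembly (from the packets as hypotheses)
-/

set_option autoImplicit false

namespace Pool.Agent.Helper81.MH

open Set Cardinal Filter
open Pool.Agent.Helper81.SB

theorem exists_enum : ∃ e : W → ℕ → W, Enum e := by
  have h : ∀ c : W, ∃ u : ℕ → W, ∀ q ≤ c, ∃ j, u j = q := by
    intro c
    have hc : (Iic c).Countable := by
      have : Iic c ⊆ insert c (Iio c) := by
        intro q hq
        rcases (mem_Iic.1 hq).lt_or_eq with h | h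
        · exact mem_insert_of_mem _ h
        · rw [h]; exact mem_insert _ _
      exact ((W_Iio c).insert c).mono this
    obtain ⟨u, hu⟩ := hc.exists_eq_range ⟨c, mem_Iic.2 le_rfl⟩
    refine ⟨u, fun q hq => ?_⟩
    have : q ∈ range u := by rw [← hu]; exact hq
    exact this
  choose e he using h
  exact ⟨e, he⟩

theorem exists_spl {S : Set (Set ℕ)} (hS : #S ≤ ℵ₁) (hspl : Splitting S) : ∃ x : W → Set ℕ, Spl x := by
  obtain ⟨s₀, hs₀, -⟩ := hspl univ infinite_univ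
  have : Nonempty S := ⟨⟨s₀, hs₀⟩⟩
  have hle : #S ≤ #W := by rw [W_card]; exact hS
  obtain ⟨emb⟩ := Cardinal.le_def _ _ |>.1 hle
  refine ⟨fun w => (Function.invFun emb w).1, ?_⟩
  intro a ha
  obtain ⟨s, hs, h⟩ := hspl a ha
  obtain ⟨w, hw⟩ := Function.invFun_surjective emb.injective ⟨s, hs⟩
  refine ⟨w, ?_⟩
  show (a ∩ (Function.invFun emb w).1).Infinite ∧ (a \ (Function.invFun emb w).1).Infinite
  rw [hw]
  exact h

theorem main_mho (hTAD : Goal_TAD) (hTCL : Goal_TCL) (hIDLE : Goal_IDLE) (hBAD : Goal_BAD)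
    (hGEN : Goal_GEN) (hNID : Goal_NID) (hCATCH : Goal_CATCH)
    (S : Set (Set ℕ)) (hS : #S ≤ ℵ₁) (hspl : Splitting S) (hmho : Mho) :
    ∃ 𝒞 : Set (Set (Set ℕ)), #𝒞 ≤ ℵ₁ ∧
    (∀ C ∈ 𝒞, ∃ F : Set (ℕ → Bool), IsClosed F ∧ C = {a | a.Infinite ∧ ∃ x ∈ F, a = {n | x n = true}}) ∧
    (⋃₀ 𝒞).Infinite ∧
    (∀ A ∈ ⋃₀ 𝒞, ∀ B ∈ ⋃₀ 𝒞, A ≠ B → (A ∩ B).Finite) ∧
    ∀ b : Set ℕ, b.Infinite → ∃ A ∈ ⋃₀ 𝒞, (A ∩ b).Infinite := by
  classical
  obtain ⟨e, he⟩ := exists_enum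
  obtain ⟨x, hx⟩ := exists_spl hS hspl
  obtain ⟨𝒮, h𝒮, hmono, hguess⟩ := hmho
  have hstep : ∀ z : Set ℕ, ∃ (t : W → ℕ → Bool) (θ : W → Bool) (Γ : W), z.Infinite →
      ∀ c, (nextS x e z c (t c) (θ c)).Infinite ∧ (Γ ≤ c → (stopS x e z c (t c) (θ c)).Infinite) := by
    intro z
    by_cases hz : z.Infinite
    · obtain ⟨c₀, hc₀⟩ := hNID hBAD hGEN x e he hx z hz
      have h : ∀ c : W, ∃ (t : ℕ → Bool) (θ : Bool), (nextS x e z c t θ).Infinite ∧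
          (c₀ ≤ c → (stopS x e z c t θ).Infinite) := by
        intro c
        by_cases hc : c₀ ≤ c
        · obtain ⟨t, θ, h1, h2⟩ := hc₀ c hc
          exact ⟨t, θ, h1, fun _ => h2⟩
        · obtain ⟨t, θ, h1⟩ := hIDLE x e z hz c
          exact ⟨t, θ, h1, fun h => absurd h hc⟩
      choose t θ h using h
      exact ⟨t, θ, c₀, fun _ => h⟩
    · exact ⟨fun _ _ => true, fun _ => true, Classical.arbitrary W, fun h => absurd h hz⟩
  choose t θ Γ hst using hstep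
  have hcatch := hCATCH x e t θ Γ (fun z hz c => (hst z hz c).1) (fun z hz c => (hst z hz c).2) 𝒮 hmono
    hguess
  apply goal_GT ((fun p : (ℕ → W) × (ℕ → ℕ) => TFam x e p.1 p.2) '' 𝒮)
  · exact mk_image_le.trans h𝒮
  · rintro 𝒟 ⟨p, -, rfl⟩
    exact ⟨hTCL x e p.1 p.2, hTAD x e p.1 p.2⟩
  · intro b hb
    obtain ⟨p, hp, h⟩ := hcatch b hb
    exact ⟨_, ⟨p, hp, rfl⟩, h⟩

/-- a partition splitting family gives a splitting family -/
theorem splitting_of_pieces {ℱ : Set (ℕ → ℕ)} (h : SplitsByPieces ℱ) :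
    Splitting ((fun e : ℕ → ℕ => {m | e m = 0}) '' ℱ) := by
  intro a ha
  obtain ⟨e, he, h⟩ := h a ha
  refine ⟨_, ⟨e, he, rfl⟩, ?_, ?_⟩
  · exact (h 0).mono (fun m hm => ⟨hm.1, hm.2⟩)
  · apply (h 1).mono
    rintro m ⟨hm1, hm2⟩
    refine ⟨hm1, ?_⟩
    intro h0
    have h0' : e m = 0 := h0
    omega

end Pool.Agent.Helper81.MH
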