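import Pool.Agent.Helper81.SB.Basic

/-!
# Project MH (MP_340b06_lc, helper81): `s = ℵ₁` and a weak guessing principle imply `a_closed = ℵ₁`

Definitions.  `W` = the first uncountable ordinal (see `Pool.Agent.Helper81.SB.Goals`, and `SB.Basic` for
`W_Iio`, `W_bdd`, `exists_closed`, ...).
-/

set_option autoImplicit false

namespace Pool.Agent.Helper81.MH

open Set Cardinal Filter
open Pool.Agent.Helper81.SB

/-! ### families of sets of natural numbers -/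

/-- closed in the space of infinite sets -/
def ClosedFam (𝒟 : Set (Set ℕ)) : Prop :=
  ∀ a : Set ℕ, a.Infinite → (∀ n, ∃ d ∈ 𝒟, ∀ m < n, m ∈ d ↔ m ∈ a) → a ∈ 𝒟

/-- almost disjoint family of infinite sets -/
def ADFam (𝒟 : Set (Set ℕ)) : Prop :=
  (∀ d ∈ 𝒟, d.Infinite) ∧ ∀ a ∈ 𝒟, ∀ d ∈ 𝒟, (a ∩ d).Infinite → a = d

/-- `𝒟` has members contained in `b` that are as sparse as we want -/
def RichIn (𝒟 : Set (Set ℕ)) (b : Set ℕ) : Prop :=
  ∀ H : ℕ → ℕ, ∃ a ∈ 𝒟, a ⊆ b ∧ ∀ x ∈ a, ∀ y ∈ a, x < y → H x ≤ y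

open Classical in
/-- the elements of `a` below `k` -/
noncomputable def pre (a : Set ℕ) (k : ℕ) : Finset ℕ := (Finset.range k).filter (fun m => m ∈ a)

theorem mem_pre {a : Set ℕ} {k m : ℕ} : m ∈ pre a k ↔ m < k ∧ m ∈ a := by
  simp [pre]

/-! ### the maps given by types

`x ξ` (`ξ ∈ W`) is the splitting family, `e c` enumerates `Iic c` in type `ω`.  A type of level `c` is a function
`t : ℕ → Bool`; `t j` tells on which side of `x (e c j)` we are. -/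

/-- `κ` is not on the side of `x (e c j)` given by `t` -/
def Dis (x : W → Set ℕ) (e : W → ℕ → W) (c : W) (t : ℕ → Bool) (κ j : ℕ) : Prop :=
  ¬ (κ ∈ x (e c j) ↔ t j = true)

theorem exN (x : W → Set ℕ) (e : W → ℕ → W) (c : W) (t : ℕ → Bool) (κ : ℕ) :
    ∃ j, κ ≤ j + 1 ∨ Dis x e c t κ j := ⟨κ, Or.inl (Nat.le_succ κ)⟩

open Classical in
/-- the first place where `κ` disagrees with `t` (at most `κ - 1`) -/
noncomputable def NN (x : W → Set ℕ) (e : W → ℕ → W) (c : W) (t : ℕ → Bool) (κ : ℕ) : ℕ :=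
  Nat.find (exN x e c t κ)

/-- iteration of the maps `NN` along the levels `c 0, c 1, ...` and the types `T 0, T 1, ...`, starting from `k` -/
noncomputable def itr (x : W → Set ℕ) (e : W → ℕ → W) (c : ℕ → W) (T : ℕ → ℕ → Bool) (k : ℕ) : ℕ → ℕ
  | 0 => k
  | i + 1 => NN x e (c i) (T i) (itr x e c T k i)

theorem exStop (x : W → Set ℕ) (e : W → ℕ → W) (c : ℕ → W) (T : ℕ → ℕ → Bool) (θ : ℕ → Bool) (k : ℕ) :
    ∃ i, k ≤ i ∨ T i (itr x e c T k (i + 1)) ≠ θ i := ⟨k, Or.inl le_rfl⟩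

open Classical in
/-- the first step at which `k` leaves the default values `θ` -/
noncomputable def nst (x : W → Set ℕ) (e : W → ℕ → W) (c : ℕ → W) (T : ℕ → ℕ → Bool) (θ : ℕ → Bool)
    (k : ℕ) : ℕ :=
  Nat.find (exStop x e c T θ k)

/-- the family of sets coded by types along the ladder `c` with the colouring `f` of the steps -/
def TFam (x : W → Set ℕ) (e : W → ℕ → W) (c : ℕ → W) (f : ℕ → ℕ) : Set (Set ℕ) :=
  {a | a.Infinite ∧ ∃ (T : ℕ → ℕ → Bool) (θ : ℕ → Bool), ∀ k ∈ a,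
    (∀ m ≤ (pre a k).card, (pre a k).card ≤ itr x e c T k (m + 1) ∧
      T m (itr x e c T k (m + 1)) = θ m) ∧
    f (nst x e c T θ k - 1) = Encodable.encode (pre a k)}

/-- the set of images of elements of `z` with the default value `θ` -/
def nextS (x : W → Set ℕ) (e : W → ℕ → W) (z : Set ℕ) (c : W) (t : ℕ → Bool) (θ : Bool) : Set ℕ :=
  {u | t u = θ ∧ ∃ κ ∈ z, NN x e c t κ = u}

/-- the elements of `z` that leave the default value `θ` -/
def stopS (x : W → Set ℕ) (e : W → ℕ → W) (z : Set ℕ) (c : W) (t : ℕ → Bool) (θ : Bool) : Set ℕ :=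
  {κ | κ ∈ z ∧ t (NN x e c t κ) ≠ θ}

/-- `t` is the type (of level `c`) of a nonprincipal ultrafilter containing `z` -/
def TypeOf (x : W → Set ℕ) (e : W → ℕ → W) (z : Set ℕ) (c : W) (t : ℕ → Bool) : Prop :=
  ∀ n, {κ | κ ∈ z ∧ ∀ j < n, (κ ∈ x (e c j) ↔ t j = true)}.Infinite

/-- the elements of `z` with first disagreement with `t` at `u` -/
def LeaveS (x : W → Set ℕ) (e : W → ℕ → W) (z : Set ℕ) (c : W) (t : ℕ → Bool) (u : ℕ) : Set ℕ :=
  {κ | κ ∈ z ∧ (∀ j < u, (κ ∈ x (e c j) ↔ t j = true)) ∧ Dis x e c t κ u}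

/-- `e c` enumerates (a set containing) `Iic c` -/
def Enum (e : W → ℕ → W) : Prop := ∀ c q : W, q ≤ c → ∃ j, e c j = q

/-- the sets `x ξ` form a splitting family -/
def Spl (x : W → Set ℕ) : Prop :=
  ∀ a : Set ℕ, a.Infinite → ∃ ξ, (a ∩ x ξ).Infinite ∧ (a \ x ξ).Infinite

/-! ### guessing principles -/

/-- `ℵ₁` pairs `(c, f)`, `c` an increasing sequence of countable ordinals, such that for every `F : ω₁ → ω₁` there is
one with `F (c i) ≤ c (i+1)` for infinitely many `i` of every colour -/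
def Mho : Prop :=
  ∃ 𝒮 : Set ((ℕ → W) × (ℕ → ℕ)), #𝒮 ≤ ℵ₁ ∧ (∀ p ∈ 𝒮, Monotone p.1) ∧
    ∀ F : W → W, ∃ p ∈ 𝒮, ∀ n, {i | p.2 i = n ∧ F (p.1 i) ≤ p.1 (i + 1)}.Infinite

/-- closed unbounded subsets of `W` -/
def IsClub (E : Set W) : Prop :=
  (∀ α, ∃ ε ∈ E, α < ε) ∧ ∀ γ : W, (∃ β, β < γ) → (∀ β < γ, ∃ ε ∈ E, β < ε ∧ ε < γ) → γ ∈ E

/-- `ℵ₁` infinite subsets of `ω₁` such that every club contains one of them -/
def ClubStick : Prop :=
  ∃ 𝒯 : Set (Set W), #𝒯 ≤ ℵ₁ ∧ (∀ T ∈ 𝒯, T.Infinite) ∧ ∀ E, IsClub E → ∃ T ∈ 𝒯, T ⊆ E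

/-- each `e ∈ ℱ` codes the partition of `ℕ` into the pieces `e ⁻¹ {n}` -/
def SplitsByPieces (ℱ : Set (ℕ → ℕ)) : Prop :=
  ∀ b : Set ℕ, b.Infinite → ∃ e ∈ ℱ, ∀ n : ℕ, {m | m ∈ b ∧ e m = n}.Infinite

end Pool.Agent.Helper81.MH
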