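import Pool.Agent.Helper81.MH.Goals
import Pool.Agent.Helper81.SB.Main

/-!
# Project MH: rank construction (`Goal_GT`)
-/

set_option autoImplicit false

namespace Pool.Agent.Helper81.MH

open Set Cardinal Filter
open Pool.Agent.Helper81.SB

/-- rank function of a set which is almost disjoint from all members of a closed family -/
theorem rank_exists {𝒟 : Set (Set ℕ)} (hcl : ClosedFam 𝒟) (b : Set ℕ)
    (hunc : ∀ d ∈ 𝒟, (d ∩ b).Finite) :
    ∃ ρ : Finset ℕ → W, ∀ d ∈ 𝒟, ∀ y ∈ d, ∀ y' ∈ d, y ∈ b → y' ∈ b → y < y' →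
      ρ (pre d (y' + 1)) < ρ (pre d (y + 1)) := by
  let r : Finset ℕ → Finset ℕ → Prop := fun s' s => ∃ d ∈ 𝒟, ∃ y ∈ d, ∃ y' ∈ d, y ∈ b ∧ y' ∈ b ∧
    y < y' ∧ s = pre d (y + 1) ∧ s' = pre d (y' + 1)
  have hwf : WellFounded r := by
    rw [wellFounded_iff_isEmpty_descending_chain]
    constructor
    rintro ⟨F, hF⟩
    choose d hd y hy y' hy' hyb hyb' hlt hs hs' using hF
    have hstep : ∀ n, y' n = y (n + 1) := by
      intro n
      have h : pre (d n) (y' n + 1) = pre (d (n + 1)) (y (n + 1) + 1) := (hs' n).symm.trans (hs (n + 1))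
      have h1 : y' n ∈ pre (d (n + 1)) (y (n + 1) + 1) := by
        rw [← h]
        exact mem_pre.2 ⟨Nat.lt_succ_self _, hy' n⟩
      have h2 : y (n + 1) ∈ pre (d n) (y' n + 1) := by
        rw [h]
        exact mem_pre.2 ⟨Nat.lt_succ_self _, hy (n + 1)⟩
      have h3 := (mem_pre.1 h1).1
      have h4 := (mem_pre.1 h2).1
      omega
    have hmono : StrictMono y := strictMono_nat_of_lt_succ (fun n => by rw [← hstep n]; exact hlt n)
    have hres : ∀ n m, m ∈ F n ↔ (m ∈ F (n + 1) ∧ m ≤ y n) := by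
      intro n m
      rw [hs' n, hs n, mem_pre, mem_pre]
      have := hlt n
      constructor
      · rintro ⟨h1, h2⟩
        exact ⟨⟨by omega, h2⟩, by omega⟩
      · rintro ⟨⟨h1, h2⟩, h3⟩
        exact ⟨by omega, h2⟩
    have hres' : ∀ k n m, m ∈ F n ↔ (m ∈ F (n + k) ∧ m ≤ y n) := by
      intro k
      induction k with
      | zero =>
        intro n m
        constructor
        · intro h
          exact ⟨h, ((hres n m).1 h).2⟩
        · exact fun h => h.1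
      | succ k ih =>
        intro n m
        rw [ih n m, ← add_assoc, hres (n + k) m]
        have h1 : y n ≤ y (n + k) := hmono.monotone (by omega)
        constructor
        · rintro ⟨⟨h2, h3⟩, h4⟩
          exact ⟨h2, h4⟩
        · rintro ⟨h2, h4⟩
          exact ⟨⟨h2, h4.trans h1⟩, h4⟩
    let A : Set ℕ := {m | ∃ n, m ∈ F n}
    have hyF : ∀ n, y n ∈ F n := by
      intro n
      rw [hs n]
      exact mem_pre.2 ⟨Nat.lt_succ_self _, hy n⟩
    have hAinf : A.Infinite :=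
      Set.infinite_of_injective_forall_mem (f := y) hmono.injective (fun n => ⟨n, hyF n⟩)
    have hAmem : A ∈ 𝒟 := by
      apply hcl A hAinf
      intro n
      refine ⟨d n, hd n, ?_⟩
      intro m hm
      have hmy : m ≤ y n := hm.le.trans (hmono.id_le n)
      have h1 : m ∈ d n ↔ m ∈ F n := by
        rw [hs n, mem_pre]
        constructor
        · intro h
          exact ⟨by omega, h⟩
        · exact fun h => h.2
      rw [h1]
      constructor
      · intro h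
        exact ⟨n, h⟩
      · rintro ⟨k, hk⟩
        rcases le_total n k with h | h
        · obtain ⟨j, rfl⟩ := Nat.exists_eq_add_of_le h
          exact (hres' j n m).2 ⟨hk, hmy⟩
        · obtain ⟨j, rfl⟩ := Nat.exists_eq_add_of_le h
          exact ((hres' j k m).1 hk).1
    have hfin := hunc A hAmem
    exact Set.infinite_of_injective_forall_mem (f := y) hmono.injective
      (fun n => (⟨⟨n, hyF n⟩, hyb n⟩ : y n ∈ A ∩ b)) hfin
  let ρ : Finset ℕ → W := hwf.fix (C := fun _ => W) (fun p ih =>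
    Classical.choose (W_bdd (Set.range (fun q : {q // r q p} => ih q.1 q.2)) (countable_range _)))
  refine ⟨ρ, ?_⟩
  intro d hd y hy y' hy' hyb hyb' hlt
  have hr : r (pre d (y' + 1)) (pre d (y + 1)) := ⟨d, hd, y, hy, y', hy', hyb, hyb', hlt, rfl, rfl⟩
  have h1 : ρ (pre d (y + 1)) =
      Classical.choose (W_bdd (Set.range (fun q : {q // r q (pre d (y + 1))} => ρ q.1))
      (countable_range _)) := hwf.fix_eq _ _
  have h2 := Classical.choose_spec (W_bdd (Set.range (fun q : {q // r q (pre d (y + 1))} => ρ q.1))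
      (countable_range _))
  rw [h1]
  exact h2 _ ⟨⟨_, hr⟩, rfl⟩

/-- the family built at stage `γ` -/
def Stage (γ : W) (𝒜 : Set (Set ℕ)) (i : W → ℕ) (dec : ℕ → W)
    (Q : ∀ β : W, β < γ → Set (Set ℕ)) : Set (Set ℕ) :=
  {a | a ∈ 𝒜 ∧ ∃ L : ℕ → Finset ℕ → ℕ, ∀ (β : W) (hβ : β < γ), ∀ d ∈ Q β hβ, ∀ y ∈ d, y ∈ a →
    i β ≤ y → (∀ z ∈ a, y < z → L (i β) (pre d (y + 1)) ≤ z) ∧
      ∀ y' ∈ d, y' ∈ a → y < y' → dec (L (i β) (pre d (y' + 1))) < dec (L (i β) (pre d (y + 1)))}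

section Stage

variable {γ : W} {𝒜 : Set (Set ℕ)} {i : W → ℕ} {dec : ℕ → W} {Q : ∀ β : W, β < γ → Set (Set ℕ)}

theorem stage_orth {a : Set ℕ} (ha : a ∈ Stage γ 𝒜 i dec Q) {β : W} (hβ : β < γ) {d : Set ℕ}
    (hd : d ∈ Q β hβ) : (a ∩ d).Finite := by
  obtain ⟨-, L, hL⟩ := ha
  by_contra hinf
  have hinf' : (a ∩ d).Infinite := hinf
  let S : Set ℕ := {y | (y ∈ a ∧ y ∈ d) ∧ i β ≤ y}
  have hS : S.Nonempty := by
    obtain ⟨y, hy, hlt⟩ := hinf'.exists_gt (i β)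
    exact ⟨y, hy, hlt.le⟩
  obtain ⟨w, ⟨y, hyS, rfl⟩, hmin⟩ := WellFounded.has_min (wellFounded_lt (α := W))
    ((fun y => dec (L (i β) (pre d (y + 1)))) '' S) (hS.image _)
  obtain ⟨y', hy', hlt⟩ := hinf'.exists_gt y
  refine hmin _ ⟨y', ⟨hy', hyS.2.trans hlt.le⟩, rfl⟩ ?_
  exact (hL β hβ d hd y hyS.1.2 hyS.1.1 hyS.2).2 y' hy'.2 hy'.1 hlt

theorem stage_closed (hcl : ClosedFam 𝒜) : ClosedFam (Stage γ 𝒜 i dec Q) := by
  classical
  intro a hinf happ
  choose d hd hagree using happ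
  refine ⟨hcl a hinf (fun n => ⟨d n, (hd n).1, hagree n⟩), ?_⟩
  choose hd1 L hL using hd
  -- ultrafilter limit of the labels
  let 𝒰 : Ultrafilter ℕ := hyperfilter ℕ
  have hge : ∀ N : ℕ, ∀ᶠ n in (𝒰 : Filter ℕ), N < n := by
    intro N
    have h : ∀ᶠ n in atTop, N < n := eventually_gt_atTop N
    have h' : ∀ᶠ n in cofinite, N < n := by rwa [Nat.cofinite_eq_atTop]
    exact hyperfilter_le_cofinite h'
  let L' : ℕ → Finset ℕ → ℕ := fun j s =>
    if h : ∃ v, ∀ᶠ n in (𝒰 : Filter ℕ), L n j s = v then h.choose else 0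
  have hlim : ∀ j s v, (∀ᶠ n in (𝒰 : Filter ℕ), L n j s ≤ v) →
      ∀ᶠ n in (𝒰 : Filter ℕ), L n j s = L' j s := by
    intro j s v hv
    have hex : ∃ w, ∀ᶠ n in (𝒰 : Filter ℕ), L n j s = w := by
      have h1 : ∀ᶠ n in (𝒰 : Filter ℕ), ∃ w ∈ Finset.range (v + 1), L n j s = w := by
        filter_upwards [hv] with n hn
        exact ⟨L n j s, Finset.mem_range.2 (Nat.lt_succ_of_le hn), rfl⟩
      have h2 : (⋃ w ∈ (Finset.range (v + 1) : Set ℕ), {n | L n j s = w}) ∈ 𝒰 := by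
        apply mem_of_superset h1
        intro n hn
        obtain ⟨w, hw, h⟩ := hn
        exact mem_biUnion (Finset.mem_coe.2 hw) h
      rw [Ultrafilter.finite_biUnion_mem_iff (Finset.finite_toSet _)] at h2
      obtain ⟨w, -, hw⟩ := h2
      exact ⟨w, hw⟩
    have : L' j s = hex.choose := by
      simp only [L']
      exact dif_pos hex
    rw [this]
    exact hex.choose_spec
  refine ⟨L', ?_⟩
  intro β hβ c hc y hyc hya hiy
  -- transfer of membership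
  have hmem : ∀ x ∈ a, ∀ᶠ n in (𝒰 : Filter ℕ), x ∈ d n := by
    intro x hx
    filter_upwards [hge x] with n hn
    exact (hagree n x hn).2 hx
  have hconv : ∀ u ∈ c, u ∈ a → i β ≤ u →
      ∀ᶠ n in (𝒰 : Filter ℕ), L n (i β) (pre c (u + 1)) = L' (i β) (pre c (u + 1)) := by
    intro u huc hua hiu
    obtain ⟨z, hz, huz⟩ := hinf.exists_gt u
    apply hlim _ _ z
    filter_upwards [hmem u hua, hmem z hz] with n h1 h2
    exact (hL n β hβ c hc u huc h1 hiu).1 z h2 huz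
  constructor
  · intro z hz hyz
    obtain ⟨n, h1, h2, h3⟩ := ((hmem y hya).and ((hmem z hz).and (hconv y hyc hya hiy))).exists
    rw [← h3]
    exact (hL n β hβ c hc y hyc h1 hiy).1 z h2 hyz
  · intro y' hyc' hya' hlt
    obtain ⟨n, h1, h2, h3, h4⟩ := ((hmem y hya).and ((hmem y' hya').and ((hconv y hyc hya hiy).and
      (hconv y' hyc' hya' (hiy.trans hlt.le))))).exists
    rw [← h3, ← h4]
    exact (hL n β hβ c hc y hyc h1 hiy).2 y' hyc' h2 hlt

theorem stage_catch (b : Set ℕ) (hrich : RichIn 𝒜 b) (hdec : ∀ α < γ, dec (i α) = α)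
    (ρ : W → Finset ℕ → W) (hρ : ∀ β < γ, ∀ s, ρ β s < γ)
    (hdecr : ∀ (β : W) (hβ : β < γ), ∀ d ∈ Q β hβ, ∀ y ∈ d, ∀ y' ∈ d, y ∈ b → y' ∈ b → y < y' →
      ρ β (pre d (y' + 1)) < ρ β (pre d (y + 1))) :
    ∃ a ∈ Stage γ 𝒜 i dec Q, a ⊆ b := by
  let L : ℕ → Finset ℕ → ℕ := fun n s => i (ρ (dec n) s)
  let H : ℕ → ℕ := fun x => ∑ n ∈ Finset.range (x + 1), ∑ s ∈ (Finset.range (x + 1)).powerset, L n s
  obtain ⟨a, ha, hab, hsp⟩ := hrich H
  refine ⟨a, ⟨ha, L, ?_⟩, hab⟩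
  intro β hβ d hd y hyd hya hiy
  have hL : ∀ s, L (i β) s = i (ρ β s) := by
    intro s
    simp only [L]
    rw [hdec β hβ]
  have hdL : ∀ s, dec (L (i β) s) = ρ β s := by
    intro s
    rw [hL s]
    exact hdec _ (hρ β hβ s)
  constructor
  · intro z hz hyz
    refine le_trans ?_ (hsp y hya z hz hyz)
    have hs : pre d (y + 1) ∈ (Finset.range (y + 1)).powerset := by
      rw [Finset.mem_powerset]
      intro m hm
      exact Finset.mem_range.2 (mem_pre.1 hm).1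
    have h1 : L (i β) (pre d (y + 1)) ≤ ∑ s ∈ (Finset.range (y + 1)).powerset, L (i β) s :=
      Finset.single_le_sum (f := fun s => L (i β) s) (fun _ _ => Nat.zero_le _) hs
    have h2 : ∑ s ∈ (Finset.range (y + 1)).powerset, L (i β) s ≤ H y :=
      Finset.single_le_sum (f := fun n => ∑ s ∈ (Finset.range (y + 1)).powerset, L n s)
        (fun _ _ => Nat.zero_le _) (Finset.mem_range.2 (Nat.lt_succ_of_le hiy))
    exact h1.trans h2
  · intro y' hyd' hya' hlt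
    rw [hdL, hdL]
    exact hdecr β hβ d hd y hyd y' hyd' (hab hya) (hab hya') hlt

end Stage

/-- the recursive construction -/
noncomputable def DD (e : W → Set (Set ℕ)) (i : W → W → ℕ) (dec : W → ℕ → W) : W → Set (Set ℕ) :=
  (wellFounded_lt (α := W)).fix (fun γ ih => Stage γ (e γ) (i γ) (dec γ) ih)

theorem DD_eq (e : W → Set (Set ℕ)) (i : W → W → ℕ) (dec : W → ℕ → W) (γ : W) :
    DD e i dec γ = Stage γ (e γ) (i γ) (dec γ) (fun β _ => DD e i dec β) := by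
  unfold DD
  rw [WellFounded.fix_eq]

/-- a family rich in `ℕ` is infinite -/
theorem rich_infinite {𝒜 : Set (Set ℕ)} (hinf : ∀ a ∈ 𝒜, a.Infinite) (hr : RichIn 𝒜 univ) :
    𝒜.Infinite := by
  classical
  intro hfin
  -- a function growing faster than all members
  have hex : ∀ x : ℕ, ∃ N, ∀ a ∈ 𝒜, ∃ y ∈ a, x < y ∧ y ≤ N := by
    intro x
    have h1 : ∀ a ∈ 𝒜, ∃ y ∈ a, x < y := fun a ha => (hinf a ha).exists_gt x
    choose! y hy hlt using h1
    obtain ⟨N, hN⟩ := (hfin.image y).bddAbove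
    exact ⟨N, fun a ha => ⟨y a, hy a ha, hlt a ha, hN (mem_image_of_mem y ha)⟩⟩
  choose N hN using hex
  obtain ⟨a, ha, -, hsp⟩ := hr (fun x => N x + 1)
  obtain ⟨x, hx⟩ := (hinf a ha).nonempty
  obtain ⟨y, hy, hlt, hle⟩ := hN x a ha
  have := hsp x hx y hy hlt
  omega

theorem main_fam (𝔉 : Set (Set (Set ℕ))) (h𝔉 : #𝔉 ≤ ℵ₁) (hfam : ∀ 𝒟 ∈ 𝔉, ClosedFam 𝒟 ∧ ADFam 𝒟)
    (hrich : ∀ b : Set ℕ, b.Infinite → ∃ 𝒟 ∈ 𝔉, RichIn 𝒟 b) :
    ∃ P : W → Set (Set ℕ), (∀ γ, ClosedFam (P γ)) ∧ (∀ γ, ∀ a ∈ P γ, a.Infinite) ∧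
      (⋃ γ, P γ).Infinite ∧
      (∀ A ∈ ⋃ γ, P γ, ∀ B ∈ ⋃ γ, P γ, A ≠ B → (A ∩ B).Finite) ∧
      ∀ b : Set ℕ, b.Infinite → ∃ A ∈ ⋃ γ, P γ, (A ∩ b).Infinite := by
  classical
  obtain ⟨χ₀, hχ₀, hrich₀⟩ := hrich univ infinite_univ
  obtain ⟨e, he0, he⟩ := exists_assignment 𝔉 h𝔉 χ₀ hχ₀
  -- replace the values outside `𝔉`
  let e' : W → Set (Set ℕ) := fun γ => if e γ ∈ 𝔉 then e γ else χ₀
  have he'mem : ∀ γ, e' γ ∈ 𝔉 := by
    intro γ
    by_cases h : e γ ∈ 𝔉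
    · simp only [e', if_pos h]; exact h
    · simp only [e', if_neg h]; exact hχ₀
  have he'eq : ∀ γ, e γ ∈ 𝔉 → e' γ = e γ := fun γ h => if_pos h
  have hi : ∀ γ : W, ∃ i : W → ℕ, InjOn i (Iio γ) :=
    fun γ => (countable_iff_exists_injOn.1 (W_Iio γ))
  choose i hi using hi
  have hdec : ∀ γ : W, ∃ dec : ℕ → W, ∀ α < γ, dec (i γ α) = α := by
    intro γ
    refine ⟨Function.invFunOn (i γ) (Iio γ), ?_⟩
    intro α hα
    exact (hi γ).leftInvOn_invFunOn hα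
  choose dec hdec using hdec
  let P : W → Set (Set ℕ) := DD e' i dec
  have hP : ∀ γ, P γ = Stage γ (e' γ) (i γ) (dec γ) (fun β _ => P β) := DD_eq e' i dec
  have hcl : ∀ γ, ClosedFam (P γ) := by
    intro γ
    rw [hP γ]
    exact stage_closed (hfam _ (he'mem γ)).1
  have hsub : ∀ γ, P γ ⊆ e' γ := by
    intro γ a ha
    rw [hP γ] at ha
    exact ha.1
  have hinfm : ∀ γ, ∀ a ∈ P γ, a.Infinite := fun γ a ha => (hfam _ (he'mem γ)).2.1 a (hsub γ ha)
  have horth : ∀ β γ : W, β < γ → ∀ A ∈ P γ, ∀ B ∈ P β, (A ∩ B).Finite := by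
    intro β γ hβγ A hA B hB
    rw [hP γ] at hA
    exact stage_orth (Q := fun β _ => P β) hA hβγ hB
  refine ⟨P, hcl, hinfm, ?_, ?_, ?_⟩
  · -- infinitely many members at the least stage
    obtain ⟨γ₀, -, hmin⟩ := WellFounded.has_min (wellFounded_lt (α := W)) univ univ_nonempty
    have hno : ∀ β, ¬ β < γ₀ := fun β => hmin β (mem_univ _)
    have heγ : e γ₀ = χ₀ := he0 γ₀ hno
    have heγ' : e' γ₀ = χ₀ := by
      rw [he'eq γ₀ (by rw [heγ]; exact hχ₀), heγ]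
    have hall : χ₀ ⊆ P γ₀ := by
      intro a ha
      rw [hP γ₀]
      exact ⟨by rw [heγ']; exact ha, fun _ _ => 0, fun β hβ => absurd hβ (hno β)⟩
    have : χ₀.Infinite := rich_infinite (hfam _ hχ₀).2.1 hrich₀
    exact this.mono (hall.trans (subset_iUnion P γ₀))
  · intro A hA B hB hAB
    obtain ⟨γ, hAγ⟩ := mem_iUnion.1 hA
    obtain ⟨β, hBβ⟩ := mem_iUnion.1 hB
    rcases lt_trichotomy β γ with h | h | h
    · exact horth β γ h A hAγ B hBβ
    · subst h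
      by_contra hinf
      exact hAB ((hfam _ (he'mem β)).2.2 A (hsub β hAγ) B (hsub β hBβ) hinf)
    · rw [inter_comm]
      exact horth γ β h B hBβ A hAγ
  · intro b hbinf
    by_contra hcon
    push Not at hcon
    have hunc : ∀ γ, ∀ A ∈ P γ, (A ∩ b).Finite := by
      intro γ A hA
      have := hcon A (mem_iUnion.2 ⟨γ, hA⟩)
      exact this
    have hrank := fun γ => rank_exists (hcl γ) b (hunc γ)
    choose ρ hρ using hrank
    have hbound : ∀ β : W, ∃ δ : W, ∀ s, ρ β s < δ := by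
      intro β
      obtain ⟨δ, hδ⟩ := W_bdd (range (ρ β)) (countable_range _)
      exact ⟨δ, fun s => hδ _ ⟨s, rfl⟩⟩
    choose F hF using hbound
    obtain ⟨χ, hχ, hrb⟩ := hrich b hbinf
    obtain ⟨γ, heγ, hγ⟩ := he χ hχ F
    have heγ' : e' γ = χ := by
      rw [he'eq γ (by rw [heγ]; exact hχ), heγ]
    have := stage_catch (γ := γ) (𝒜 := e' γ) (i := i γ) (dec := dec γ)
        (Q := fun β _ => P β) b (by rw [heγ']; exact hrb) (hdec γ) ρ
        (fun β hβ s => (hF β s).trans (hγ β hβ))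
        (fun β _ d hd y hy y' hy' hyb hyb' hlt => hρ β d hd y hy y' hy' hyb hyb' hlt)
    obtain ⟨A, hA, hAb⟩ := this
    rw [← hP γ] at hA
    have h1 : (A ∩ b).Finite := hunc γ A hA
    rw [inter_eq_left.2 hAb] at h1
    exact hinfm γ A hA h1

/-- the closed subset of the Cantor space attached to a family -/
def CF (𝒟 : Set (Set ℕ)) : Set (ℕ → Bool) :=
  {x | ∀ n, ∃ d ∈ 𝒟, ∀ m < n, (m ∈ d ↔ x m = true)}

theorem isClosed_CF (𝒟 : Set (Set ℕ)) : IsClosed (CF 𝒟) := by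
  have h : CF 𝒟 = ⋂ n, {x : ℕ → Bool | ∃ d ∈ 𝒟, ∀ m < n, (m ∈ d ↔ x m = true)} := by
    ext x
    simp [CF]
  rw [h]
  apply isClosed_iInter
  intro n
  let res : (ℕ → Bool) → (Fin n → Bool) := fun x k => x k
  have hres : Continuous res := by
    apply continuous_pi
    intro k
    exact continuous_apply _
  have : {x : ℕ → Bool | ∃ d ∈ 𝒟, ∀ m < n, (m ∈ d ↔ x m = true)} =
      res ⁻¹' {z | ∃ d ∈ 𝒟, ∀ m : Fin n, ((m : ℕ) ∈ d ↔ z m = true)} := by
    ext x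
    constructor
    · rintro ⟨d, hd, hx⟩
      exact ⟨d, hd, fun m => hx m m.2⟩
    · rintro ⟨d, hd, hx⟩
      exact ⟨d, hd, fun m hm => hx ⟨m, hm⟩⟩
  rw [this]
  exact (isClosed_discrete _).preimage hres

theorem fam_eq {𝒟 : Set (Set ℕ)} (hcl : ClosedFam 𝒟) (hinf : ∀ a ∈ 𝒟, a.Infinite) :
    𝒟 = {a | a.Infinite ∧ ∃ x ∈ CF 𝒟, a = {n | x n = true}} := by
  classical
  ext a
  constructor
  · intro ha
    refine ⟨hinf a ha, fun n => decide (n ∈ a), ?_, ?_⟩
    · intro n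
      exact ⟨a, ha, fun m _ => by simp⟩
    · ext n
      simp
  · rintro ⟨hainf, x, hx, rfl⟩
    exact hcl _ hainf (fun n => hx n)

theorem goal_GT : Goal_GT := by
  intro 𝔉 h𝔉 hfam hrich
  obtain ⟨P, hcl, hinfm, h1, h2, h3⟩ := main_fam 𝔉 h𝔉 hfam hrich
  refine ⟨range P, ?_, ?_, ?_, ?_, ?_⟩
  · calc #(range P) ≤ #W := mk_range_le
      _ = ℵ₁ := W_card
  · rintro C ⟨γ, rfl⟩
    exact ⟨CF (P γ), isClosed_CF _, fam_eq (hcl γ) (hinfm γ)⟩
  · rw [sUnion_range]; exact h1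
  · rw [sUnion_range]; exact h2
  · rw [sUnion_range]; exact h3

end Pool.Agent.Helper81.MH
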