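import Pool.Agent.Helper81.MH.Defs

/-!
# Project MH: statements of the packets, with complete proofs in the docstrings

Main line.  GT (a `≤ ℵ₁` set of closed almost disjoint families catching every infinite set richly gives
`a_closed = ℵ₁`), TAD + TCL (`TFam` is an almost disjoint closed family), IDLE, BAD, GEN (one step of the process),
CATCH (`Spl` and `Mho` give rich catching by the families `TFam`), DM, PM, CM (sufficient conditions for `Mho`).
-/

set_option autoImplicit false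

namespace Pool.Agent.Helper81.MH

open Set Cardinal Filter
open Pool.Agent.Helper81.SB

/-- TAD (0.8 h).  Let `a, d ∈ TFam` with `T, θ` and `T', θ'`, `a ∩ d` infinite.  For `r` given there is `k ∈ a ∩ d` with
`r ≤ (pre a k).card` and `r ≤ (pre d k).card` (both contain `pre (a ∩ d) k`).
Induction on `m`: `T m = T' m`.  Assume `T i = T' i` for `i < m`; then `itr .. T k i = itr .. T' k i =: κ` for all `k` and
`i ≤ m`.  Given `r`, take `k` as above for `max m (r+1)`: `r + 1 ≤ itr .. T k (m+1) = NN x e (c m) (T m) κ`, so by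
`Nat.find_min` `κ` agrees with `T m` at `r`: `κ ∈ x (e (c m) r) ↔ T m r = true`; the same for `T' m`.  So
`T m r = T' m r`.  Also `θ m = T m (itr .. T k (m+1)) = T' m (itr .. T' k (m+1)) = θ' m` (for any `k` with large `pre`).
Hence `T = T'`, `θ = θ'`, and for `k ∈ a ∩ d`: `encode (pre a k) = f (nst k - 1) = encode (pre d k)`, so
`pre a k = pre d k`.  As `a ∩ d` is unbounded, `a = d`. -/
def Goal_TAD : Prop := ∀ (x : W → Set ℕ) (e : W → ℕ → W) (c : ℕ → W) (f : ℕ → ℕ), ADFam (TFam x e c f)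

/-- TCL (1 h).  Locality: `itr .. T k i ≤ k`; `NN x e c t κ` depends only on `t j`, `j < κ` (the test at `j` matters only
if `¬ κ ≤ j + 1`), and `NN .. κ ≤ κ`, `nst .. k ≤ k`.  So if `T i j = T' i j` and `θ i = θ' i` for all `i, j ≤ k`, then
`itr .. T k i = itr .. T' k i` for `i ≤ k + 1`, and `nst` agree at `k`.
Let `a` be infinite and `d n ∈ TFam` with `m ∈ d n ↔ m ∈ a` for `m < n`, with `T n, θ n`.  Let `𝒰 = hyperfilter ℕ` and
`T∞ i j = true` iff `∀ᶠ n in 𝒰, T n i j = true`, `θ∞ i = true` iff `∀ᶠ n in 𝒰, θ n i = true`.  For each `k` the set of all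
`n > k` with `T n i j = T∞ i j`, `θ n i = θ∞ i` for all `i, j ≤ k` is in `𝒰` (finitely many conditions), so nonempty; take
such an `n`: for `k ∈ a` we have `k ∈ d n`, `pre a k = pre (d n) k`, and the condition at `k` for `d n, T n, θ n` is the
condition for `a, T∞, θ∞` (note `(pre a k).card ≤ k`). -/
def Goal_TCL : Prop := ∀ (x : W → Set ℕ) (e : W → ℕ → W) (c : ℕ → W) (f : ℕ → ℕ), ClosedFam (TFam x e c f)

/-- IDLE (0.5 h).  Let `𝒰 = Ultrafilter.of (cofinite ⊓ 𝓟 z)`, `t j = true` iff `x (e c j) ∈ 𝒰` (`decide`).  For every `n` the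
set `{κ ∈ z | ∀ j < n, (κ ∈ x (e c j) ↔ t j = true)}` is in `𝒰`, hence infinite: `TypeOf x e z c t`.  An element
`κ > n + 1` of it has `n ≤ NN x e c t κ`.  So `{NN κ | κ ∈ z}` is infinite; it is `nextS .. true ∪ nextS .. false`. -/
def Goal_IDLE : Prop := ∀ (x : W → Set ℕ) (e : W → ℕ → W) (z : Set ℕ), z.Infinite → ∀ c : W,
  ∃ (t : ℕ → Bool) (θ : Bool), (nextS x e z c t θ).Infinite

/-- BAD (0.6 h).  It is the union over `n` and `σ : Fin n → Bool` of the sets of all `t` in it with this `n` and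
`t i = σ i` for `i < n`; each of these has at most one element.  Let `t, t'` be two of them; by strong induction
`t u = t' u` for all `u`: for `u < n` clear.  Let `n ≤ u`, `t j = t' j` for `j < u`, and suppose `t u ≠ t' u`, say `t u = v`
(otherwise `t' u = v`; symmetric).  Then `LeaveS x e z c t u` is finite.  But it contains
`{κ ∈ z | ∀ j < u + 1, (κ ∈ x (e c j) ↔ t' j = true)}` (agreement with `t'` at `u` is disagreement with `t` at `u`), which
is infinite by `TypeOf .. t'`. -/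
def Goal_BAD : Prop := ∀ (x : W → Set ℕ) (e : W → ℕ → W) (z : Set ℕ) (c : W) (v : Bool),
  {t : ℕ → Bool | TypeOf x e z c t ∧ ∃ n, ∀ u, n ≤ u → t u = v → (LeaveS x e z c t u).Finite}.Countable

/-- GEN (1.2 h).  For a finite set `p : Finset (W × Bool)` let `cell p = {κ ∈ z | ∀ w ∈ p, (κ ∈ x w.1 ↔ w.2 = true)}`; if
it is infinite, `ξ p` splits it (`Spl`).  For `β : W` there are only countably many `p` with first coordinates
`≤ β` (`W_Iio`), so there is `G β` above all `ξ p` (`W_bdd`); let `c₀` be closed under `G`, `0 < c₀`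
(`exists_closed G α` gives `α < c₀` and `∀ β < c₀, G β < c₀`).  So for `p` with first coordinates `< c₀` and
`cell p` infinite, `ξ p < c₀` (`p` empty: `ξ ∅ ≤ G β` for any `β < c₀`).
Let `c₀ ≤ c`, `B` countable, `B ⊆ range s`, `s : ℕ → (ℕ → Bool)` (trivial if `B = ∅`: use any `s`).  Recursion:
`p 0 = ∅`, `p (n+1) = insert (ξ (p n), ! s n j) (p n)` where `e c j = ξ (p n)` (`Enum`; `j = j n`).  All `cell (p n)` are
infinite, decreasing.  Choose `κ n ∈ cell (p n)` strictly increasing, `z' = range κ`, `𝒰 = Ultrafilter.of (cofinite ⊓ 𝓟 z')`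
(or any ultrafilter containing all `cell (p n)` and no finite set), `t j = true` iff `x (e c j) ∈ 𝒰`.  `TypeOf x e z c t` as in
IDLE (`z ∈ 𝒰`).  `cell (p (n+1)) ∈ 𝒰` gives `t (j n) = ! s n (j n)`, so `t ≠ s n` for all `n`. -/
def Goal_GEN : Prop := ∀ (x : W → Set ℕ) (e : W → ℕ → W), Enum e → Spl x → ∀ z : Set ℕ, z.Infinite →
  ∃ c₀ : W, ∀ c, c₀ ≤ c → ∀ B : Set (ℕ → Bool), B.Countable → ∃ t, TypeOf x e z c t ∧ t ∉ B

/-- NID (0.3 h; from BAD and GEN).  Take `c₀` from GEN, `B` the union of the two sets of BAD, `t` of type, `t ∉ B`.  So for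
`v = true, false` infinitely many `u` have `t u = v` and `LeaveS x e z c t u` infinite.  If `κ ∈ LeaveS .. u` and `u + 1 < κ`
then `NN x e c t κ = u`.  With `θ = true`: `nextS` contains all `u` with `t u = true` and `LeaveS .. u` infinite, and
`stopS` contains almost all `κ ∈ LeaveS .. u` for one `u` with `t u = false`, `LeaveS .. u` infinite. -/
def Goal_NID : Prop := Goal_BAD → Goal_GEN → ∀ (x : W → Set ℕ) (e : W → ℕ → W), Enum e → Spl x →
  ∀ z : Set ℕ, z.Infinite → ∃ c₀ : W, ∀ c, c₀ ≤ c →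
    ∃ (t : ℕ → Bool) (θ : Bool), (nextS x e z c t θ).Infinite ∧ (stopS x e z c t θ).Infinite

/-- CATCH (1.5 h).  Let `b` be infinite.  For a finite list `s` of elements of `W` let `B [] = b`,
`B (s ++ [w]) = nextS x e (B s) w (t (B s) w) (θ (B s) w)` (use reversed lists: `B (w :: s) = ...`); all are infinite by `h1`.
For `β : W` there are countably many lists with entries `≤ β`, so there is `F β` above all `Γ (B s)` (`W_bdd`).
Let `p = (c, f) ∈ 𝒮` be as in `hg` for this `F`; `b i = B (c (i-1) :: ... :: c 0)`, `b 0 = b`,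
`b (i+1) = nextS x e (b i) (c i) (T i) (θ' i)`, `T i = t (b i) (c i)`, `θ' i = θ (b i) (c i)`.  As `c` is monotone, the
list of `b (i+1)` has entries `≤ c i`: so `F (c i) ≤ c (i+1)` implies `Γ (b (i+1)) ≤ c (i+1)` and by `h2`
`stopS x e (b (i+1)) (c (i+1)) (T (i+1)) (θ' (i+1))` is infinite.

Fact.  Let `n ≥ 1`, `κ ∈ stopS x e (b n) (c n) (T n) (θ' n)`, `1 ≤ κ`.  There are `κ' 0, ..., κ' n = κ`, `κ' m ∈ b m`,
`NN x e (c m) (T m) (κ' m) = κ' (m+1)`, `T m (κ' (m+1)) = θ' m` for `m < n` (downward recursion from the definition of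
`b (m+1)`).  `k = κ' 0 ∈ b` has `itr .. T k m = κ' m` for `m ≤ n`; `NN κ < κ` for `1 ≤ κ`, so `κ' m ≥ κ + (n - m)`, in
particular `n < k`, `κ ≤ itr .. T k m` for `m ≤ n`, and `nst .. T θ' k = n` (no stop before `n`, stop at `n`).

Let `H` be given.  Build `a = {a 0 < a 1 < ...}` recursively (e.g. a sequence of finite sets): given the set
`s = {a 0, ..., a (j-1)}` and `v = encode s`, take `i > j + 1` with `f i = v`, `F (c i) ≤ c (i+1)` and `i ≥ H x + x + 1` for all
`x ∈ s`; put `n = i + 1`, take `κ ≥ j + 1` in `stopS .. n` and let `a j` be the `k` of the Fact.  Then `a j > n` is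
larger than `x` and `H x` for all `x ∈ s`; `pre a (a j) = s` has card `j`; for `m ≤ j`: `m + 1 ≤ n`, so
`j ≤ κ ≤ itr .. (a j) (m+1)` and `T m (itr .. (m+1)) = θ' m` as `m < n`; `f (nst - 1) = f i = encode s`.
So `a ∈ TFam x e c f`, `a ⊆ b`, sparse for `H`. -/
def Goal_CATCH : Prop := ∀ (x : W → Set ℕ) (e : W → ℕ → W) (t : Set ℕ → W → ℕ → Bool)
  (θ : Set ℕ → W → Bool) (Γ : Set ℕ → W)
  (_h1 : ∀ z : Set ℕ, z.Infinite → ∀ c, (nextS x e z c (t z c) (θ z c)).Infinite)
  (_h2 : ∀ z : Set ℕ, z.Infinite → ∀ c, Γ z ≤ c → (stopS x e z c (t z c) (θ z c)).Infinite)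
  (𝒮 : Set ((ℕ → W) × (ℕ → ℕ))) (_hm : ∀ p ∈ 𝒮, Monotone p.1)
  (_hg : ∀ F : W → W, ∃ p ∈ 𝒮, ∀ n, {i | p.2 i = n ∧ F (p.1 i) ≤ p.1 (i + 1)}.Infinite),
  ∀ b : Set ℕ, b.Infinite → ∃ p ∈ 𝒮, RichIn (TFam x e p.1 p.2) b

/-- DM (0.7 h).  Given the family `𝒮₀` of `Dag`; for `p = (C, g) ∈ 𝒮₀` with `C` infinite let `c : ℕ → W` enumerate `C` in
increasing order (finite initial segments; e.g. `c i` = the element of `C` with exactly `i` predecessors in `C`, or
recursively the least element of `C` above `c (i-1)`, which exists as `C` is infinite with finite initial segments) and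
`f i = g (c (i+1))`.  `𝒮` = the set of these pairs, at most `ℵ₁`.
Given `F`, `E = {γ | ∀ β < γ, F β < γ}` is unbounded (`exists_closed`), so uncountable (`W_bdd`).  Take `(C, g)` for
`D = E`; for `n` infinitely many `ξ ∈ C ∩ E` have `g ξ = n`; all but one are `c (i+1)`, and `c i < c (i+1) ∈ E` gives
`F (c i) < c (i+1)`. -/
def Goal_DM : Prop := Dag → Mho

/-- PM (0.8 h).  For every `γ ∈ W` that is a limit (`∀ β < γ, ∃ β' < γ, β < β'`, and `Iio γ` nonempty) fix a monotone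
`c γ : ℕ → W` cofinal in `γ` with values `< γ` (from an enumeration of `Iio γ`, `W_Iio`).  `𝒮` = all pairs `(c γ, e)`, `e ∈ ℱ`.
Given `F`: let `E = {γ | ∀ β < γ, F β < γ}`; for `β` let `F' β ∈ E`, `β < F' β`; let `γ` be closed under `F'`, `Iio γ`
nonempty (`exists_closed`).  Then `γ` is a limit and for every `β < γ` there is `ε ∈ E` with `β < ε < γ`.  So
`I = {i | F (c i) ≤ c (i+1)}` (`c = c γ`) is infinite: given `i₀` take `ε ∈ E`, `c i₀ < ε < γ`, and the last `i` with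
`c i < ε` (`i ≥ i₀`, exists by cofinality): `F (c i) < ε ≤ c (i+1)`.  Take `e ∈ ℱ` with all `{i ∈ I | e i = n}` infinite. -/
def Goal_PM : Prop := (∃ ℱ : Set (ℕ → ℕ), #ℱ ≤ ℵ₁ ∧ SplitsByPieces ℱ) → Mho

/-- CM (0.5 h).  For `T ∈ 𝒯` take an increasing sequence `c : ℕ → W` in `T` (an infinite well-ordered set contains one), and
`f i = (Nat.unpair i).1`.  Given `F`, `E = {γ | ∀ β < γ, F β < γ}` is a club (`exists_closed`; closed: if `γ` is a limit of
elements of `E`, `β < γ`, take `ε ∈ E`, `β < ε < γ`: `F β < ε < γ`).  If `T ⊆ E`: `F (c i) < c (i+1)` for all `i`. -/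
def Goal_CM : Prop := ClubStick → Mho

/-- GT (helper81): a set of at most `ℵ₁` closed almost disjoint families that catches every infinite set richly gives
a MAD family which is a union of at most `ℵ₁` closed sets. -/
def Goal_GT : Prop := ∀ 𝔉 : Set (Set (Set ℕ)), #𝔉 ≤ ℵ₁ → (∀ 𝒟 ∈ 𝔉, ClosedFam 𝒟 ∧ ADFam 𝒟) →
  (∀ b : Set ℕ, b.Infinite → ∃ 𝒟 ∈ 𝔉, RichIn 𝒟 b) →
  ∃ 𝒞 : Set (Set (Set ℕ)), #𝒞 ≤ ℵ₁ ∧
    (∀ C ∈ 𝒞, ∃ F : Set (ℕ → Bool), IsClosed F ∧ C = {a | a.Infinite ∧ ∃ x ∈ F, a = {n | x n = true}}) ∧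
    (⋃₀ 𝒞).Infinite ∧
    (∀ A ∈ ⋃₀ 𝒞, ∀ B ∈ ⋃₀ 𝒞, A ≠ B → (A ∩ B).Finite) ∧
    ∀ b : Set ℕ, b.Infinite → ∃ A ∈ ⋃₀ 𝒞, (A ∩ b).Infinite

end Pool.Agent.Helper81.MH
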